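import Mathlib
import Pool.Agent.Lib.MP_af82af_pr.Defs
import Pool.Agent.Lib.MP_af82af_pr.Prob
import Pool.Agent.Lib.MP_af82af_pr.Basic
import Pool.Agent.Lib.MP_af82af_pr.Merge

/-!
# A gap between the thresholds for planes and for the whole Hamming torus
-/

open Finset

namespace Pool.Agent.Results.MP_af82af_pr.LargeDimensionGap

open Pool.Agent.HammingTorus

variable {n d : ℕ}

open scoped Classical

/-! ### The whole torus is hard to open -/

lemma card_cube_le (hn : 1 ≤ n) (I : Finset (Fin d)) (a : Site n d) :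
    ((univ : Finset (Site n d)).filter (fun x => ∀ k, k ∉ I → x k = a k)).card ≤ n ^ I.card := by
  have hcard : (univ : Finset (I → Fin n)).card = n ^ I.card := by
    simp
  rw [← hcard]
  refine Finset.card_le_card_of_injOn (fun x => fun k : I => x k) (fun _ _ => mem_coe.2 (mem_univ _)) ?_
  intro x hx y hy hxy
  rw [mem_coe, mem_filter] at hx hy
  ext k
  by_cases hk : k ∈ I
  · have := congrFun hxy ⟨k, hk⟩
    simp only at this
    rw [this]
  · rw [hx.2 k hk, hy.2 k hk]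

lemma prob_all_le {K θ : ℕ} (hK : 2 ≤ K) (hθ : 2 ≤ θ) (hn : 2 ≤ n) (hd : 2 * K - 4 < d)
    {p : ℝ} (h0 : 0 ≤ p) (h1 : p ≤ 1) :
    prob p (OpensSubgraph (n := n) (d := d) θ d) ≤
      (2:ℝ) ^ d * (n:ℝ) ^ d * ((n:ℝ) ^ (4 * K - 6)) ^ K * p ^ K := by
  set D := 4 * K - 6 with hD
  set cube : Finset (Fin d) × Site n d → Finset (Site n d) :=
    fun q => (univ : Finset (Site n d)).filter (fun x => ∀ k, k ∉ q.1 → x k = q.2 k) with hcube
  set Q : Finset (Finset (Fin d) × Site n d) := univ.filter (fun q => q.1.card ≤ D) with hQ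
  set 𝒯 : Finset (Finset (Site n d)) := Q.biUnion (fun q => powersetCard K (cube q)) with h𝒯
  have hub : prob p (OpensSubgraph (n := n) (d := d) θ d) ≤ ∑ T ∈ 𝒯, p ^ T.card := by
    refine prob_union_bound h0 h1 _ 𝒯 ?_
    rintro A ⟨I, a, hI, hx⟩
    have hIu : I = univ := by
      rw [← Finset.card_eq_iff_eq_univ]
      simpa using hI
    subst hIu
    by_contra hcon
    push Not at hcon
    obtain ⟨v, hv⟩ := exists_closed_site hK hθ hn hd A (by
      intro I a hI
      by_contra hlt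
      push Not at hlt
      obtain ⟨T, hT, hTc⟩ := Finset.exists_subset_card_eq hlt
      refine hcon T ?_ (hT.trans (filter_subset _ _))
      rw [h𝒯, mem_biUnion]
      refine ⟨(I, a), by simp [hQ, hI, hD], ?_⟩
      rw [mem_powersetCard]
      refine ⟨?_, hTc⟩
      intro x hx
      have := hT hx
      rw [mem_filter] at this
      simp only [hcube, mem_filter, mem_univ, true_and]
      exact this.2)
    exact hv (hx v (fun k hk => absurd (mem_univ k) hk))
  have hsum : ∑ T ∈ 𝒯, p ^ T.card = (𝒯.card : ℝ) * p ^ K := by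
    rw [← nsmul_eq_mul, ← Finset.sum_const]
    refine Finset.sum_congr rfl (fun T hT => ?_)
    rw [h𝒯, mem_biUnion] at hT
    obtain ⟨q, _, hT⟩ := hT
    rw [mem_powersetCard] at hT
    rw [hT.2]
  have hcard : 𝒯.card ≤ 2 ^ d * n ^ d * (n ^ D) ^ K := by
    calc 𝒯.card ≤ ∑ q ∈ Q, (powersetCard K (cube q)).card := card_biUnion_le
      _ ≤ ∑ q ∈ Q, (n ^ D) ^ K := by
          refine Finset.sum_le_sum (fun q hq => ?_)
          rw [hQ, mem_filter] at hq
          rw [card_powersetCard]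
          calc (cube q).card.choose K ≤ (cube q).card ^ K := Nat.choose_le_pow _ _
            _ ≤ (n ^ D) ^ K := by
                refine Nat.pow_le_pow_left ?_ K
                refine (card_cube_le (by omega) q.1 q.2).trans ?_
                exact Nat.pow_le_pow_right (by omega) hq.2
      _ = Q.card * (n ^ D) ^ K := by rw [Finset.sum_const, smul_eq_mul]
      _ ≤ (2 ^ d * n ^ d) * (n ^ D) ^ K := by
          gcongr
          calc Q.card ≤ (univ : Finset (Finset (Fin d) × Site n d)).card := card_filter_le _ _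
            _ = 2 ^ d * n ^ d := by
                rw [card_univ, Fintype.card_prod, Fintype.card_finset]
                simp
  calc prob p (OpensSubgraph (n := n) (d := d) θ d) ≤ (𝒯.card : ℝ) * p ^ K := by
        rw [← hsum]; exact hub
    _ ≤ ((2 ^ d * n ^ d * (n ^ D) ^ K : ℕ) : ℝ) * p ^ K := by
        gcongr
    _ = _ := by push_cast; ring

/-! ### A plane is easy to open -/

/-- the base point of the plane indexed by `b` -/
def base (hn : 1 ≤ n) (b : Fin (d - 2) → Fin n) : Site n d :=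
  fun k => if h : 2 ≤ k.val then b ⟨k.val - 2, by omega⟩ else ⟨0, hn⟩

/-- a `θ × θ` grid in the plane indexed by `b` -/
noncomputable def grid (hd : 2 ≤ d) (θ : ℕ) (hn : 1 ≤ n) (hθn : θ ≤ n)
    (b : Fin (d - 2) → Fin n) : Finset (Site n d) :=
  (univ : Finset (Fin θ × Fin θ)).image (fun q =>
    Function.update (Function.update (base hn b) ⟨0, by omega⟩ (Fin.castLE hθn q.1))
      ⟨1, by omega⟩ (Fin.castLE hθn q.2))

lemma card_grid (hd : 2 ≤ d) (θ : ℕ) (hn : 1 ≤ n) (hθn : θ ≤ n) (b : Fin (d - 2) → Fin n) :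
    (grid hd θ hn hθn b).card = θ ^ 2 := by
  unfold grid
  rw [Finset.card_image_of_injective]
  · simp [sq]
  · rintro ⟨i, j⟩ ⟨i', j'⟩ h
    simp only at h
    have e1 := congrFun h ⟨1, by omega⟩
    have e0 := congrFun h ⟨0, by omega⟩
    rw [Function.update_self, Function.update_self] at e1
    have hne : (⟨0, by omega⟩ : Fin d) ≠ ⟨1, by omega⟩ := by simp
    rw [Function.update_of_ne hne, Function.update_of_ne hne, Function.update_self,
      Function.update_self] at e0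
    simp only [Fin.castLE_inj] at e0 e1
    simp [e0, e1]

lemma grid_coord (hd : 2 ≤ d) (θ : ℕ) (hn : 1 ≤ n) (hθn : θ ≤ n) (b : Fin (d - 2) → Fin n)
    {x : Site n d} (hx : x ∈ grid hd θ hn hθn b) (k : Fin (d - 2)) :
    x ⟨k.val + 2, by omega⟩ = b k := by
  unfold grid at hx
  rw [mem_image] at hx
  obtain ⟨q, _, rfl⟩ := hx
  rw [Function.update_of_ne (by simp [Fin.ext_iff]), Function.update_of_ne (by simp [Fin.ext_iff])]
  unfold base
  simp

lemma grid_disjoint (hd : 2 ≤ d) (θ : ℕ) (hn : 1 ≤ n) (hθn : θ ≤ n)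
    (s : Set (Fin (d - 2) → Fin n)) : s.PairwiseDisjoint (grid hd θ hn hθn) := by
  intro b _ b' _ hbb
  rw [Function.onFun, Finset.disjoint_left]
  intro x hx hx'
  apply hbb
  ext k
  rw [← grid_coord hd θ hn hθn b hx k, ← grid_coord hd θ hn hθn b' hx' k]

lemma opens_of_grid (hd : 2 ≤ d) (θ : ℕ) (hn : 1 ≤ n) (hθn : θ ≤ n) (b : Fin (d - 2) → Fin n)
    (A : Finset (Site n d)) (hA : grid hd θ hn hθn b ⊆ A) : OpensSubgraph θ 2 A := by
  refine plane_of_grid A (base hn b) ⟨0, by omega⟩ ⟨1, by omega⟩ (by simp)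
    (Fin.castLE hθn) (Fin.castLE_injective hθn) ?_
  intro i j
  apply hA
  unfold grid
  rw [mem_image]
  exact ⟨(i, j), mem_univ _, rfl⟩

lemma prob_plane_ge (hd : 2 ≤ d) (θ : ℕ) (hn : 1 ≤ n) (hθn : θ ≤ n) {p : ℝ} (h0 : 0 ≤ p)
    (h1 : p ≤ 1) :
    1 - (1 - p ^ (θ ^ 2)) ^ (n ^ (d - 2)) ≤ prob p (OpensSubgraph (n := n) (d := d) θ 2) := by
  have := prob_lower_bound h0 h1 (OpensSubgraph (n := n) (d := d) θ 2)
    (univ : Finset (Fin (d - 2) → Fin n)) (grid hd θ hn hθn) (grid_disjoint hd θ hn hθn _)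
    (fun A b _ hb => opens_of_grid hd θ hn hθn b A hb)
  refine le_trans (le_of_eq ?_) this
  congr 1
  rw [Finset.prod_congr rfl (fun b _ => by rw [card_grid hd θ hn hθn b]), Finset.prod_const]
  simp

/-! ### The two thresholds -/

/-- upper bound for the plane threshold -/
lemma plane_threshold_le {θ : ℕ} (hd : 2 ≤ d) (hθ : 1 ≤ θ) (hn : 2 ≤ n) (hθn : θ ≤ n) {p : ℝ}
    (hp : IsCriticalProb θ n d 2 p) :
    Real.logb n p ≤ -(((d - 2 : ℕ) : ℝ) / (θ:ℝ) ^ 2) := by
  obtain ⟨⟨h0, h1⟩, hhalf⟩ := hp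
  have hnR : (1:ℝ) < n := by exact_mod_cast (by omega : 1 < n)
  have hn0 : (0:ℝ) < n := by linarith
  set q : ℝ := (n:ℝ) ^ (-(((d - 2 : ℕ) : ℝ) / (θ:ℝ) ^ 2)) with hq
  have hθR : (0:ℝ) < θ := by exact_mod_cast (by omega : 0 < θ)
  have hq0 : 0 < q := Real.rpow_pos_of_pos hn0 _
  have hq1 : q ≤ 1 := by
    rw [hq]
    apply Real.rpow_le_one_of_one_le_of_nonpos hnR.le
    have : (0:ℝ) ≤ ((d - 2 : ℕ) : ℝ) / (θ:ℝ) ^ 2 := by positivity
    linarith
  have hqpow : q ^ (θ ^ 2) = 1 / ((n ^ (d - 2) : ℕ) : ℝ) := by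
    rw [hq, ← Real.rpow_natCast, ← Real.rpow_mul hn0.le]
    have : -(((d - 2 : ℕ) : ℝ) / (θ:ℝ) ^ 2) * ((θ ^ 2 : ℕ) : ℝ) = -((d - 2 : ℕ) : ℝ) := by
      push_cast
      field_simp
    rw [this, Real.rpow_neg hn0.le, Real.rpow_natCast]
    push_cast
    rw [one_div]
  have hprob : 1 / 2 < prob q (OpensSubgraph (n := n) (d := d) θ 2) := by
    refine lt_of_lt_of_le ?_ (prob_plane_ge hd θ (by omega) hθn hq0.le hq1)
    rw [hqpow]
    set N : ℕ := n ^ (d - 2) with hN
    have hNpos : 0 < N := Nat.pow_pos (by omega)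
    have hNR : (0:ℝ) < (N:ℝ) := by exact_mod_cast hNpos
    have hN1 : (1:ℝ) ≤ N := by exact_mod_cast hNpos
    have h1 : (1 - 1 / (N:ℝ)) ^ N ≤ Real.exp (-1) := by
      calc (1 - 1 / (N:ℝ)) ^ N ≤ (Real.exp (-(1 / (N:ℝ)))) ^ N := by
            apply pow_le_pow_left₀
            · rw [sub_nonneg, div_le_one hNR]; exact hN1
            · have := Real.add_one_le_exp (-(1 / (N:ℝ)))
              linarith
        _ = Real.exp (-1) := by
            rw [← Real.exp_nat_mul]
            congr 1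
            field_simp
    have h2 : Real.exp (-1) < 1 / 2 := by
      rw [Real.exp_neg]
      have := Real.exp_one_gt_d9
      rw [inv_lt_comm₀ (by positivity) (by norm_num)]
      norm_num
      linarith
    linarith
  have hple : p ≤ q := by
    by_contra hlt
    push Not at hlt
    have := prob_strictMono hq0.le hlt h1 (OpensSubgraph (n := n) (d := d) θ 2)
      (fun _ _ h hA => opensSubgraph_mono θ 2 h hA)
      (not_opensSubgraph_empty hθ 2) (opensSubgraph_univ θ (by omega) hd)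
    rw [hhalf] at this
    linarith
  have hp0 : 0 < p := by
    rcases h0.lt_or_eq with h | h
    · exact h
    · exfalso
      rw [← h] at hhalf
      have : prob 0 (OpensSubgraph (n := n) (d := d) θ 2) < prob q (OpensSubgraph (n := n) (d := d) θ 2) :=
        prob_strictMono le_rfl hq0 hq1 _
          (fun _ _ h hA => opensSubgraph_mono θ 2 h hA)
          (not_opensSubgraph_empty hθ 2) (opensSubgraph_univ θ (by omega) hd)
      -- the probability at zero vanishes
      have hz : prob 0 (OpensSubgraph (n := n) (d := d) θ 2) = 0 := by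
        unfold prob
        refine Finset.sum_eq_zero (fun A hA => ?_)
        simp only [mem_filter, mem_univ, true_and] at hA
        unfold weight
        have : A.card ≠ 0 := by
          intro h
          rw [card_eq_zero] at h
          rw [h] at hA
          exact not_opensSubgraph_empty hθ 2 hA
        rw [zero_pow this]
        ring
      rw [hz] at hhalf
      norm_num at hhalf
  calc Real.logb n p ≤ Real.logb n q := Real.logb_le_logb_of_le hnR hp0 hple
    _ = _ := by rw [hq, Real.logb_rpow hn0 hnR.ne']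

/-- lower bound for the threshold of the whole torus -/
lemma whole_threshold_ge {K θ : ℕ} (hK : 2 ≤ K) (hθ : 2 ≤ θ) (hn : 2 ^ (d + 1) ≤ n)
    (hd : 2 * K - 4 < d) {p : ℝ} (hp : IsCriticalProb θ n d d p) :
    -(((d:ℝ) + (4 * K - 6 : ℕ) * K + 1) / K) ≤ Real.logb n p := by
  obtain ⟨⟨h0, h1⟩, hhalf⟩ := hp
  have h2n : 2 ≤ n := by
    calc 2 = 2 ^ 1 := by norm_num
      _ ≤ 2 ^ (d + 1) := Nat.pow_le_pow_right (by norm_num) (by omega)
      _ ≤ n := hn
  have hnR : (1:ℝ) < n := by exact_mod_cast (by omega : 1 < n)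
  have hn0 : (0:ℝ) < n := by linarith
  have hle := prob_all_le (n := n) (d := d) hK hθ h2n hd h0 h1
  rw [hhalf] at hle
  have hp0 : 0 < p := by
    rcases h0.lt_or_eq with h | h
    · exact h
    · exfalso
      rw [← h, zero_pow (by omega : K ≠ 0)] at hle
      norm_num at hle
  have hKR : (0:ℝ) < K := by exact_mod_cast (by omega : 0 < K)
  set D := 4 * K - 6 with hD
  -- take logarithms
  have hge : 1 ≤ (n:ℝ) ^ (d + D * K + 1) * p ^ K := by
    have h2 : (2:ℝ) ^ (d + 1) ≤ n := by exact_mod_cast hn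
    have e1 : (1:ℝ) ≤ 2 * ((2:ℝ) ^ d * (n:ℝ) ^ d * ((n:ℝ) ^ D) ^ K * p ^ K) := by linarith
    calc (1:ℝ) ≤ 2 * ((2:ℝ) ^ d * (n:ℝ) ^ d * ((n:ℝ) ^ D) ^ K * p ^ K) := e1
      _ = (2:ℝ) ^ (d + 1) * ((n:ℝ) ^ (d + D * K) * p ^ K) := by
          rw [pow_succ, pow_add (n:ℝ) d (D * K), pow_mul]
          ring
      _ ≤ n * ((n:ℝ) ^ (d + D * K) * p ^ K) := by gcongr
      _ = _ := by rw [pow_succ (n:ℝ) (d + D * K)]; ring
  have hlog : 0 ≤ Real.logb n ((n:ℝ) ^ (d + D * K + 1) * p ^ K) := Real.logb_nonneg hnR hge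
  rw [Real.logb_mul (by positivity) (by positivity), Real.logb_pow, Real.logb_pow,
    Real.logb_self_eq_one hnR, mul_one] at hlog
  push_cast at hlog
  rw [neg_le, ← sub_nonneg]
  have : ((d:ℝ) + D * K + 1) / K - -Real.logb n p
      = ((d:ℝ) + D * K + 1 + K * Real.logb n p) / K := by
    field_simp
    ring
  rw [this]
  positivity

/-- **Answer to Q1.** For all parameters the thresholds `p_c(i,d;θ,n)` are well defined, and for
every `θ ≥ 2` and every dimension `d > 4θ⁴(θ²+1)`, for all `n ≥ 2^(d+1)`, the difference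
`log_n p_c(d,d) - log_n p_c(2,d)` is at least the positive constant `d/(θ²(θ²+1)) - 4θ²`. -/
theorem result :
    (∀ n d θ i : ℕ, 1 ≤ n → 1 ≤ θ → i ≤ d → ∃! p : ℝ, IsCriticalProb θ n d i p) ∧
    (∀ θ d : ℕ, 2 ≤ θ → 4 * θ ^ 4 * (θ ^ 2 + 1) < d →
      0 < (d:ℝ) / ((θ:ℝ) ^ 2 * ((θ:ℝ) ^ 2 + 1)) - 4 * (θ:ℝ) ^ 2 ∧
      ∀ n : ℕ, 2 ^ (d + 1) ≤ n → ∀ p₂ p_d : ℝ,
        IsCriticalProb θ n d 2 p₂ → IsCriticalProb θ n d d p_d →
        (d:ℝ) / ((θ:ℝ) ^ 2 * ((θ:ℝ) ^ 2 + 1)) - 4 * (θ:ℝ) ^ 2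
          ≤ Real.logb n p_d - Real.logb n p₂) := by
  refine ⟨fun n d θ i hn hθ hi => existsUnique_criticalProb n d θ i hn hθ hi, ?_⟩
  intro θ d hθ hd
  have hθR : (2:ℝ) ≤ θ := by exact_mod_cast hθ
  have hdR : 4 * (θ:ℝ) ^ 4 * ((θ:ℝ) ^ 2 + 1) < d := by exact_mod_cast hd
  have hm4 : (4:ℝ) ≤ (θ:ℝ) ^ 2 := by nlinarith
  set m : ℝ := (θ:ℝ) ^ 2 with hm
  have hm0 : 0 < m := by linarith
  have hθ4 : (θ:ℝ) ^ 4 = m ^ 2 := by rw [hm]; ring
  rw [hθ4] at hdR
  constructor
  · rw [sub_pos, lt_div_iff₀ (by positivity)]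
    nlinarith
  · intro n hn p₂ p_d h2 hdd
    have hθd : θ ^ 2 + 1 < d := by
      have : 1 ≤ 4 * θ ^ 4 := by
        have : 1 ≤ θ ^ 4 := Nat.one_le_pow _ _ (by omega)
        omega
      calc θ ^ 2 + 1 = 1 * (θ ^ 2 + 1) := by ring
        _ ≤ 4 * θ ^ 4 * (θ ^ 2 + 1) := Nat.mul_le_mul_right _ this
        _ < d := hd
    have h2d : 2 * (θ ^ 2 + 1) - 4 < d := by
      have : 2 ≤ 4 * θ ^ 4 := by
        have : 1 ≤ θ ^ 4 := Nat.one_le_pow _ _ (by omega)
        omega
      have : 2 * (θ ^ 2 + 1) ≤ 4 * θ ^ 4 * (θ ^ 2 + 1) := Nat.mul_le_mul_right _ this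
      omega
    have hdpow : d + 1 < 2 ^ (d + 1) := Nat.lt_two_pow_self
    have hθle : θ ≤ θ ^ 2 := by nlinarith
    have hθn : θ ≤ n := by omega
    have hK2 : 2 ≤ θ ^ 2 + 1 := by nlinarith
    have a1 := plane_threshold_le (n := n) (d := d) (θ := θ) (by omega) (by omega) (by omega)
      hθn h2
    have a2 := whole_threshold_ge (n := n) (d := d) (K := θ ^ 2 + 1) (θ := θ) hK2 hθ hn h2d hdd
    have hc1 : ((d - 2 : ℕ) : ℝ) = (d:ℝ) - 2 := by
      rw [Nat.cast_sub (by omega)]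
      norm_num
    have hc2 : ((4 * (θ ^ 2 + 1) - 6 : ℕ) : ℝ) = 4 * m - 2 := by
      rw [Nat.cast_sub (by nlinarith)]
      push_cast
      rw [hm]
      ring
    have hc3 : ((θ ^ 2 + 1 : ℕ) : ℝ) = m + 1 := by push_cast; rw [hm]
    rw [hc1] at a1
    rw [hc2, hc3] at a2
    have hkey : (d:ℝ) / (m * (m + 1)) - 4 * m ≤
        ((d:ℝ) - 2) / m - ((d:ℝ) + (4 * m - 2) * (m + 1) + 1) / (m + 1) := by
      have hm1 : 0 < m + 1 := by linarith
      rw [← sub_nonneg]
      have : ((d:ℝ) - 2) / m - ((d:ℝ) + (4 * m - 2) * (m + 1) + 1) / (m + 1)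
          - ((d:ℝ) / (m * (m + 1)) - 4 * m) = (2 * m * (m + 1) - 2 * (m + 1) - m) / (m * (m + 1)) := by
        field_simp
        ring
      rw [this]
      apply div_nonneg _ (by positivity)
      nlinarith
    linarith

end Pool.Agent.Results.MP_af82af_pr.LargeDimensionGap
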