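import Mathlib
import Pool.Agent.Lib.MP_af82af_pr.Defs
import Pool.Agent.Lib.MP_af82af_pr.Prob
import Pool.Agent.Lib.MP_af82af_pr.Basic
import Pool.Agent.Lib.MP_af82af_pr.Indep
import Pool.Agent.Lib.MP_af82af_pr.Growth
import Pool.Agent.Lib.MP_af82af_pr.Obstruct
import Pool.Agent.Lib.MP_af82af_pr.LowerProb
import Pool.Agent.Lib.MP_af82af_pr.UpperProb

/-!
# Threshold three, dimensions four and five: no gap
-/

open Finset Filter Topology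

namespace Pool.Agent.Results.MP_af82af_pr.NoGapSmallDimension

open Pool.Agent.HammingTorus

/-! ### The lower bound for all thresholds -/

lemma threshold_gt {d : ℕ} (hd3 : 3 ≤ d) (hd7 : d ≤ 7) {ε : ℝ} (hε : 0 < ε) :
    ∀ᶠ n : ℕ in atTop, ∀ i : ℕ, ∀ p : ℝ, 2 ≤ i → IsCriticalProb 3 n d i p →
      (n:ℝ) ^ (-((d:ℝ) + 5) / 4 - ε) < p := by
  have hlim : Tendsto (fun n : ℕ => (16 * (16 * (d:ℝ)) ^ 15 * 2 ^ 16) * (n:ℝ) ^ (-ε))
      atTop (𝓝 ((16 * (16 * (d:ℝ)) ^ 15 * 2 ^ 16) * 0)) :=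
    ((tendsto_rpow_neg_atTop hε).comp tendsto_natCast_atTop_atTop).const_mul _
  rw [mul_zero] at hlim
  have hev := hlim.eventually (gt_mem_nhds (by norm_num : (0:ℝ) < 1 / 2))
  filter_upwards [hev, eventually_ge_atTop 4] with n hn hn4 i p hi hp
  obtain ⟨⟨h0, h1⟩, hhalf⟩ := hp
  by_contra hle
  push Not at hle
  have hb := prob_not_sparse_le (n := n) (d := d) (by omega) (by omega) hε h0 h1 hle
  have hm : prob p (OpensSubgraph (n := n) (d := d) 3 i) ≤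
      prob p (fun A : Finset (Site n d) => ¬ Sparse A) :=
    prob_mono h0 h1 _ _ (fun A hA hs => not_opensSubgraph hs hd3 hd7 hn4 hi hA)
  rw [hhalf] at hm
  linarith

/-! ### Auxiliary estimates -/

lemma quarter_ge {n : ℕ} (hn : 8 ≤ n) : (n:ℝ) / 8 ≤ ((n / 4 : ℕ) : ℝ) := by
  have h : n ≤ 8 * (n / 4) := by omega
  have : (n:ℝ) ≤ 8 * ((n / 4 : ℕ) : ℝ) := by exact_mod_cast h
  linarith

lemma quarter_le (n : ℕ) : ((n / 4 : ℕ) : ℝ) ≤ (n:ℝ) / 4 := by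
  have h : 4 * (n / 4) ≤ n := Nat.mul_div_le n 4
  have : 4 * ((n / 4 : ℕ) : ℝ) ≤ (n:ℝ) := by exact_mod_cast h
  linarith

/-- the parameter slightly above the critical exponent -/
noncomputable def qq (n d : ℕ) (ε : ℝ) : ℝ := (n:ℝ) ^ (-((d:ℝ) + 5) / 4 + ε)

lemma qq_pos {n d : ℕ} (hn : 1 ≤ n) (ε : ℝ) : 0 < qq n d ε :=
  Real.rpow_pos_of_pos (by exact_mod_cast hn) _

lemma qq_le_one {n d : ℕ} (hn : 1 ≤ n) {ε : ℝ} (hε : ε ≤ 1 / 8) (hd : 4 ≤ d) : qq n d ε ≤ 1 := by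
  refine Real.rpow_le_one_of_one_le_of_nonpos (by exact_mod_cast hn) ?_
  have : (4:ℝ) ≤ d := by exact_mod_cast hd
  linarith

lemma qq_mul_sq {n d : ℕ} (hn : 1 ≤ n) {ε : ℝ} (hε : ε ≤ 1 / 8) (hd : 4 ≤ d) :
    qq n d ε * ((n / 4 : ℕ) : ℝ) ^ 2 ≤ 1 := by
  have hnR : (1:ℝ) ≤ n := by exact_mod_cast hn
  have hn0 : (0:ℝ) < n := by linarith
  have hdR : (4:ℝ) ≤ d := by exact_mod_cast hd
  have h1 : ((n / 4 : ℕ) : ℝ) ≤ (n:ℝ) := (quarter_le n).trans (by linarith)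
  calc qq n d ε * ((n / 4 : ℕ) : ℝ) ^ 2 ≤ qq n d ε * (n:ℝ) ^ 2 := by
        have := (qq_pos (d := d) hn ε).le
        gcongr
    _ = (n:ℝ) ^ (-((d:ℝ) + 5) / 4 + ε + 2) := by
        unfold qq
        rw [Real.rpow_add hn0 _ 2, Real.rpow_two]
    _ ≤ 1 := Real.rpow_le_one_of_one_le_of_nonpos hnR (by linarith)

lemma four_seed_estimate {n d : ℕ} (hn : 8 ≤ n) (hd : 2 ≤ d) (ε : ℝ) :
    (1 / (8 ^ 7 * 32)) * (n:ℝ) ^ (4 * ε) ≤
      qq n d ε ^ 4 * ((n / 4 : ℕ) : ℝ) ^ 7 / 32 * ((n ^ (d - 2) : ℕ) : ℝ) := by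
  have hnR : (8:ℝ) ≤ n := by exact_mod_cast hn
  have hn0 : (0:ℝ) < n := by linarith
  have h1 := quarter_ge hn
  have e1 : qq n d ε ^ 4 = (n:ℝ) ^ (-((d:ℝ) + 5) + 4 * ε) := by
    unfold qq
    rw [← Real.rpow_natCast, ← Real.rpow_mul hn0.le]
    congr 1
    push_cast
    ring
  have e2 : ((n ^ (d - 2) : ℕ) : ℝ) = (n:ℝ) ^ ((d:ℝ) - 2) := by
    push_cast
    rw [← Real.rpow_natCast]
    congr 1
    rw [Nat.cast_sub hd]
    norm_num
  have e3 : (n:ℝ) ^ (4 * ε) = (n:ℝ) ^ (-((d:ℝ) + 5) + 4 * ε) * (n:ℝ) ^ 7 * (n:ℝ) ^ ((d:ℝ) - 2) := by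
    rw [← Real.rpow_natCast (n:ℝ) 7, ← Real.rpow_add hn0, ← Real.rpow_add hn0]
    congr 1
    push_cast
    ring
  rw [e1, e2, e3]
  have h2 : (n:ℝ) ^ 7 / 8 ^ 7 ≤ ((n / 4 : ℕ) : ℝ) ^ 7 := by
    rw [← div_pow]
    gcongr
  have hA : 0 < (n:ℝ) ^ (-((d:ℝ) + 5) + 4 * ε) := Real.rpow_pos_of_pos hn0 _
  have hB : 0 < (n:ℝ) ^ ((d:ℝ) - 2) := Real.rpow_pos_of_pos hn0 _
  calc (1 / (8 ^ 7 * 32)) * ((n:ℝ) ^ (-((d:ℝ) + 5) + 4 * ε) * (n:ℝ) ^ 7 * (n:ℝ) ^ ((d:ℝ) - 2))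
      = (n:ℝ) ^ (-((d:ℝ) + 5) + 4 * ε) * ((n:ℝ) ^ 7 / 8 ^ 7) / 32 * (n:ℝ) ^ ((d:ℝ) - 2) := by ring
    _ ≤ _ := by gcongr

lemma two_seed_estimate {n d : ℕ} (hn : 8 ≤ n) (hd5 : d ≤ 5) (ε : ℝ) :
    (1 / (8 ^ 5 * 4)) * (n:ℝ) ^ (2 * ε) ≤
      (qq n d ε * ((n / 4 : ℕ) : ℝ) ^ 2 / 2) ^ 2 * ((n / 4 : ℕ) : ℝ) := by
  have hnR : (8:ℝ) ≤ n := by exact_mod_cast hn
  have hn0 : (0:ℝ) < n := by linarith
  have hdR : (d:ℝ) ≤ 5 := by exact_mod_cast hd5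
  have h1 := quarter_ge hn
  have e1 : qq n d ε ^ 2 = (n:ℝ) ^ (-((d:ℝ) + 5) / 2 + 2 * ε) := by
    unfold qq
    rw [← Real.rpow_natCast, ← Real.rpow_mul hn0.le]
    congr 1
    push_cast
    ring
  have e3 : (n:ℝ) ^ (2 * ε) ≤ (n:ℝ) ^ (-((d:ℝ) + 5) / 2 + 2 * ε) * (n:ℝ) ^ 5 := by
    rw [← Real.rpow_natCast (n:ℝ) 5, ← Real.rpow_add hn0]
    apply Real.rpow_le_rpow_of_exponent_le (by linarith)
    push_cast
    linarith
  have e4 : (qq n d ε * ((n / 4 : ℕ) : ℝ) ^ 2 / 2) ^ 2 * ((n / 4 : ℕ) : ℝ) =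
      qq n d ε ^ 2 * ((n / 4 : ℕ) : ℝ) ^ 5 / 4 := by ring
  rw [e4, e1]
  have h2 : (n:ℝ) ^ 5 / 8 ^ 5 ≤ ((n / 4 : ℕ) : ℝ) ^ 5 := by
    rw [← div_pow]
    gcongr
  have hA : 0 < (n:ℝ) ^ (-((d:ℝ) + 5) / 2 + 2 * ε) := Real.rpow_pos_of_pos hn0 _
  calc (1 / (8 ^ 5 * 4)) * (n:ℝ) ^ (2 * ε)
      ≤ (1 / (8 ^ 5 * 4)) * ((n:ℝ) ^ (-((d:ℝ) + 5) / 2 + 2 * ε) * (n:ℝ) ^ 5) := by gcongr
    _ = (n:ℝ) ^ (-((d:ℝ) + 5) / 2 + 2 * ε) * ((n:ℝ) ^ 5 / 8 ^ 5) / 4 := by ring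
    _ ≤ _ := by gcongr

/-- polynomial times stretched exponential tends to zero -/
lemma tendsto_poly_mul_exp {c γ : ℝ} (hc : 0 < c) (hγ : 0 < γ) (m : ℕ) (C : ℝ) :
    Tendsto (fun n : ℕ => (n:ℝ) ^ m * (C * Real.exp (-(c * (n:ℝ) ^ γ)))) atTop (𝓝 0) := by
  have h1 : Tendsto (fun n : ℕ => (n:ℝ) ^ γ) atTop atTop :=
    (tendsto_rpow_atTop hγ).comp tendsto_natCast_atTop_atTop
  have h2 := (tendsto_rpow_mul_exp_neg_mul_atTop_nhds_zero ((m:ℝ) / γ) c hc).comp h1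
  have h3 := h2.const_mul C
  rw [mul_zero] at h3
  refine h3.congr (fun n => ?_)
  simp only [Function.comp]
  have hn0 : (0:ℝ) ≤ n := Nat.cast_nonneg n
  rw [← Real.rpow_mul hn0]
  have : γ * ((m:ℝ) / γ) = m := by field_simp
  rw [this, Real.rpow_natCast]
  have : -c * (n:ℝ) ^ γ = -(c * (n:ℝ) ^ γ) := by ring
  rw [this]
  ring

lemma tendsto_exp {c γ : ℝ} (hc : 0 < c) (hγ : 0 < γ) :
    Tendsto (fun n : ℕ => Real.exp (-(c * (n:ℝ) ^ γ))) atTop (𝓝 0) := by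
  have := tendsto_poly_mul_exp hc hγ 0 1
  simpa using this

/-! ### The upper bounds -/

/-- an increasing event which has probability more than one half at `q` has its threshold
below `q` -/
lemma threshold_le {n d i : ℕ} (hn : 1 ≤ n) (hi : i ≤ d) {p q : ℝ} (h0 : 0 ≤ q)
    (hp : IsCriticalProb 3 n d i p)
    (hq : 1 / 2 < prob q (OpensSubgraph (n := n) (d := d) 3 i)) : p ≤ q := by
  obtain ⟨⟨_, h1⟩, hhalf⟩ := hp
  by_contra hlt
  push Not at hlt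
  have := prob_strictMono h0 hlt h1 (OpensSubgraph (n := n) (d := d) 3 i)
    (fun _ _ h hA => opensSubgraph_mono 3 i h hA)
    (not_opensSubgraph_empty (by norm_num) i) (opensSubgraph_univ 3 hn hi)
  rw [hhalf] at this
  linarith

/-- all thresholds in dimensions four and five -/
lemma threshold_le_all {d : ℕ} (hd4 : 4 ≤ d) (hd5 : d ≤ 5) {ε : ℝ} (hε : 0 < ε)
    (hε8 : ε ≤ 1 / 8) :
    ∀ᶠ n : ℕ in atTop, ∀ i : ℕ, ∀ p : ℝ, i ≤ d → IsCriticalProb 3 n d i p → p ≤ qq n d ε := by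
  have l1 := tendsto_exp (c := 1 / (8 ^ 7 * 32)) (γ := 4 * ε) (by norm_num) (by linarith)
  have l2 := tendsto_poly_mul_exp (c := 1 / (8 ^ 5 * 4)) (γ := 2 * ε) (by norm_num)
    (by linarith) (d - 2) (((d - 2 : ℕ) : ℝ) * 3)
  have l3 := l1.add l2
  rw [add_zero] at l3
  have hev := l3.eventually (gt_mem_nhds (by norm_num : (0:ℝ) < 1 / 2))
  filter_upwards [hev, eventually_ge_atTop 8] with n hn hn8 i p hi hp
  have hq0 := (qq_pos (d := d) (n := n) (by omega) ε).le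
  have hq1 := qq_le_one (n := n) (d := d) (by omega) hε8 hd4
  refine threshold_le (by omega) hi hq0 hp ?_
  have hb := prob_not_all_open_le (n := n) (d := d) (by omega) (by omega) hq0 hq1
    (qq_mul_sq (by omega) hε8 hd4)
  have hb1 : Real.exp (-(qq n d ε ^ 4 * ((n / 4 : ℕ) : ℝ) ^ 7 / 32 * ((n ^ (d - 2) : ℕ) : ℝ))) ≤
      Real.exp (-(1 / (8 ^ 7 * 32) * (n:ℝ) ^ (4 * ε))) := by
    apply Real.exp_le_exp.2
    exact neg_le_neg (four_seed_estimate hn8 (by omega) ε)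
  have hb2 : Real.exp (-((qq n d ε * ((n / 4 : ℕ) : ℝ) ^ 2 / 2) ^ 2 * ((n / 4 : ℕ) : ℝ))) ≤
      Real.exp (-(1 / (8 ^ 5 * 4) * (n:ℝ) ^ (2 * ε))) := by
    apply Real.exp_le_exp.2
    exact neg_le_neg (two_seed_estimate hn8 hd5 ε)
  have hb3 : (n:ℝ) ^ (d - 2) * (((d - 2 : ℕ) : ℝ) * (3 *
        Real.exp (-((qq n d ε * ((n / 4 : ℕ) : ℝ) ^ 2 / 2) ^ 2 * ((n / 4 : ℕ) : ℝ))))) ≤
      (n:ℝ) ^ (d - 2) * (((d - 2 : ℕ) : ℝ) * 3 *
        Real.exp (-(1 / (8 ^ 5 * 4) * (n:ℝ) ^ (2 * ε)))) := by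
    rw [mul_assoc ((d - 2 : ℕ) : ℝ) 3]
    gcongr
  have hlt : prob (qq n d ε) (fun A : Finset (Site n d) => ¬ ∀ v, OpenAtEnd 3 A v) < 1 / 2 := by
    linarith
  rw [prob_not] at hlt
  have hmono : prob (qq n d ε) (fun A : Finset (Site n d) => ∀ v, OpenAtEnd 3 A v) ≤
      prob (qq n d ε) (OpensSubgraph (n := n) (d := d) 3 i) := by
    refine prob_mono hq0 hq1 _ _ (fun A hA => ?_)
    obtain ⟨I, _, hI⟩ := Finset.exists_subset_card_eq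
      (s := (univ : Finset (Fin d))) (n := i) (by simpa using hi)
    exact ⟨I, fun _ => ⟨0, by omega⟩, hI, fun x _ => hA x⟩
  linarith

/-! ### The theorem -/

/-- **Answer to Q2.** All thresholds exist and are unique.  For `θ = 3` and `d = 4` or `d = 5`,
`log_n p_c(i,d;3,n) → -(d+5)/4` for all `2 ≤ i ≤ d`; in particular
`log_n p_c(d,d;3,n) - log_n p_c(2,d;3,n)` tends to `0`, so that there is no gap. -/
theorem result :
    (∀ n d θ i : ℕ, 1 ≤ n → 1 ≤ θ → i ≤ d → ∃! p : ℝ, IsCriticalProb θ n d i p) ∧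
    (∀ d : ℕ, (d = 4 ∨ d = 5) → ∀ pc : ℕ → ℕ → ℝ,
      (∀ i n, 1 ≤ n → i ≤ d → IsCriticalProb 3 n d i (pc i n)) →
      (∀ i, 2 ≤ i → i ≤ d →
        Tendsto (fun n : ℕ => Real.logb n (pc i n)) atTop (𝓝 (-((d:ℝ) + 5) / 4))) ∧
      Tendsto (fun n : ℕ => Real.logb n (pc d n) - Real.logb n (pc 2 n)) atTop (𝓝 0) ∧
      ¬ ∃ ε : ℝ, 0 < ε ∧
        ∀ᶠ n : ℕ in atTop, ε ≤ Real.logb n (pc d n) - Real.logb n (pc 2 n)) := by
  refine ⟨fun n d θ i hn hθ hi => existsUnique_criticalProb n d θ i hn hθ hi, ?_⟩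
  · intro d hd pc hpc
    have hd4 : 4 ≤ d := by omega
    have hd5 : d ≤ 5 := by omega
    have main : ∀ i, 2 ≤ i → i ≤ d →
        Tendsto (fun n : ℕ => Real.logb n (pc i n)) atTop (𝓝 (-((d:ℝ) + 5) / 4)) := by
      intro i hi2 hid
      rw [tendsto_order]
      constructor
      · intro a ha
        have hε : 0 < -((d:ℝ) + 5) / 4 - a := by linarith
        filter_upwards [threshold_gt (by omega) (by omega : d ≤ 7) hε, eventually_ge_atTop 2]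
          with n hn hn2
        have h := hn i (pc i n) hi2 (hpc i n (by omega) hid)
        have hnR : (1:ℝ) < n := by exact_mod_cast (by omega : 1 < n)
        have e : -((d:ℝ) + 5) / 4 - (-((d:ℝ) + 5) / 4 - a) = a := by ring
        rw [e] at h
        rw [Real.lt_logb_iff_rpow_lt hnR ((Real.rpow_pos_of_pos (by linarith) _).trans h)]
        exact h
      · intro a ha
        set ε : ℝ := min (1 / 8) ((a - -((d:ℝ) + 5) / 4) / 2) with hεdef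
        have hε : 0 < ε := lt_min (by norm_num) (by linarith)
        have hε1 : ε ≤ 1 / 8 := min_le_left _ _
        have hε2 : ε ≤ (a - -((d:ℝ) + 5) / 4) / 2 := min_le_right _ _
        filter_upwards [threshold_le_all hd4 hd5 hε hε1, threshold_gt (by omega) (by omega : d ≤ 7) hε,
          eventually_ge_atTop 2] with n hn hn' hn2
        have h := hn i (pc i n) hid (hpc i n (by omega) hid)
        have h' := hn' i (pc i n) hi2 (hpc i n (by omega) hid)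
        have hnR : (1:ℝ) < n := by exact_mod_cast (by omega : 1 < n)
        have hp0 : 0 < pc i n := (Real.rpow_pos_of_pos (by linarith) _).trans h'
        have : Real.logb n (pc i n) ≤ Real.logb n (qq n d ε) := Real.logb_le_logb_of_le hnR hp0 h
        unfold qq at this
        rw [Real.logb_rpow (by linarith) hnR.ne'] at this
        linarith
    have hdiff : Tendsto (fun n : ℕ => Real.logb n (pc d n) - Real.logb n (pc 2 n)) atTop (𝓝 0) := by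
      have := (main d (by omega) le_rfl).sub (main 2 le_rfl (by omega))
      rw [sub_self] at this
      exact this
    refine ⟨main, hdiff, ?_⟩
    rintro ⟨ε, hε, hev⟩
    have h2 := hdiff.eventually (gt_mem_nhds hε)
    obtain ⟨n, hn1, hn2⟩ := (hev.and h2).exists
    linarith

end Pool.Agent.Results.MP_af82af_pr.NoGapSmallDimension
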